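import Pool.Agent.H655.GS.Code

/-! Isometries between two codes. -/

namespace Pool.Agent.H655.GS

open Set Filter Topology Pool.Agent.H655.UR
open Pool.Agent.H655.GE (Rel Cor xx xx_inj xx_dense mx mx_nonneg mx_le_one mx_symm mx_tri mx_self
  mx_pos mx_lt Lb' vl' vl'_mem lab' lab'_surj TT' enc' lb_bd of gh_zero)
open scoped ENNReal

variable (X : RSys) {f g : Met}

/-- `H` moves the point `x` of the first code to within `η` of the point `y` of the second. -/
def NN (H : MM (theta X f) ≃ᵢ MM (theta X g)) (η : ℝ) (x y : TT') : Prop :=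
  dist (H (pp X f x)) (pp X g y) < η

theorem NN_total (H : MM (theta X f) ≃ᵢ MM (theta X g)) (x : TT') {η : ℝ} (hη : 0 < η) :
    ∃ y, NN X H η x y := by
  obtain ⟨w', ⟨q, rfl⟩, hw'⟩ : ∃ w' ∈ range (pp X g), dist (H (pp X f x)) w' < η :=
    Metric.mem_closure_iff.1 (pp_dense X g _) η hη
  exact ⟨q, hw'⟩

theorem NN_symm (H : MM (theta X f) ≃ᵢ MM (theta X g)) {x y : TT'} {η : ℝ} :
    NN X H.symm η y x ↔ NN X H η x y := by
  unfold NN
  rw [← H.isometry.dist_eq, IsometryEquiv.apply_symm_apply, dist_comm]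

theorem NN_surj (H : MM (theta X f) ≃ᵢ MM (theta X g)) (y : TT') {η : ℝ} (hη : 0 < η) :
    ∃ x, NN X H η x y := by
  obtain ⟨x, hx⟩ := NN_total X H.symm y hη
  exact ⟨x, (NN_symm X H).1 hx⟩

theorem NN_dist (H : MM (theta X f) ≃ᵢ MM (theta X g)) {x y x' y' : TT'} {α β : ℝ}
    (h : NN X H α x y) (h' : NN X H β x' y') : |WX X f f x x' - WX X g g y y'| < α + β := by
  unfold NN at h h'
  rw [← pp_dist X, ← pp_dist X, ← H.isometry.dist_eq, abs_lt]
  have h1 := dist_triangle4 (H (pp X f x)) (pp X g y) (pp X g y') (H (pp X f x'))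
  have h2 := dist_triangle4 (pp X g y) (H (pp X f x)) (H (pp X f x')) (pp X g y')
  have h3 := dist_comm (H (pp X f x)) (pp X g y)
  have h4 := dist_comm (H (pp X f x')) (pp X g y')
  constructor <;> linarith

theorem lbl (f : Met) (m m' : ℕ) : WX X f f (Sum.inl m) (Sum.inl m') =
    if m = m' then 0 else if m + 1 = m' ∨ m' + 1 = m then 9 / 10 else 1 := rfl

theorem NN_inl (H : MM (theta X f) ≃ᵢ MM (theta X g)) {m : ℕ} {y : TT'} {η : ℝ} (hη : η ≤ 1 / 50)
    (h : NN X H η (Sum.inl m) y) : ∃ m', y = Sum.inl m' := by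
  obtain ⟨y', hy'⟩ := NN_total X H (Sum.inl (m + 1)) (show (0 : ℝ) < 1 / 50 by norm_num)
  have h1 := abs_lt.1 (NN_dist X H h hy')
  have h2 : WX X f f (Sum.inl m) (Sum.inl (m + 1)) = 9 / 10 := by
    rw [lbl X, if_neg (by omega), if_pos (by omega)]
  rw [h2] at h1
  rcases y with m' | q
  · exact ⟨m', rfl⟩
  · exfalso
    rcases y' with m' | q'
    · have := (vl'_mem g (lab' m') q.1).2
      simp only [WX] at h1
      linarith [h1.2]
    · have := tp_le X g g q q'
      have e : WX X g g (Sum.inr q) (Sum.inr q') = tp X g g q q' := rfl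
      rw [e] at h1
      linarith [h1.2]

theorem NN_uniq (H : MM (theta X f) ≃ᵢ MM (theta X g)) {x : TT'} {m m' : ℕ} {α β : ℝ}
    (hα : α ≤ 1 / 50) (hβ : β ≤ 1 / 50) (h : NN X H α x (Sum.inl m)) (h' : NN X H β x (Sum.inl m')) :
    m = m' := by
  by_contra hne
  have h1 := abs_lt.1 (NN_dist X H h h')
  rw [WX_self X] at h1
  have h2 := (lb_bd m m').2.2 hne
  rw [lbl X] at h1
  linarith [h1.1]

theorem lbl_adj {m m' n n' : ℕ} (h : |WX X f f (Sum.inl m) (Sum.inl m') -
    WX X g g (Sum.inl n) (Sum.inl n')| < 1 / 50 + 1 / 50) :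
    (m + 1 = m' ∨ m' + 1 = m) ↔ (n + 1 = n' ∨ n' + 1 = n) := by
  rw [lbl X, lbl X, abs_lt] at h
  constructor
  · intro h1
    rw [if_neg (by omega), if_pos h1] at h
    by_contra h2
    by_cases h3 : n = n'
    · rw [if_pos h3] at h
      linarith [h.2]
    · rw [if_neg h3, if_neg h2] at h
      linarith [h.1]
  · intro h1
    rw [if_neg (show ¬ n = n' by omega), if_pos h1] at h
    by_contra h2
    by_cases h3 : m = m'
    · rw [if_pos h3] at h
      linarith [h.1]
    · rw [if_neg h3, if_neg h2] at h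
      linarith [h.2]

theorem NN_lab (H : MM (theta X f) ≃ᵢ MM (theta X g)) (m : ℕ) {η : ℝ} (hη : 0 < η) :
    NN X H η (Sum.inl m) (Sum.inl m) := by
  have h50 : (0 : ℝ) < 1 / 50 := by norm_num
  have e1 : ∀ m, ∃ m', NN X H (1 / 50) (Sum.inl m) (Sum.inl m') := by
    intro m
    obtain ⟨y, hy⟩ := NN_total X H (Sum.inl m) h50
    obtain ⟨m', rfl⟩ := NN_inl X H le_rfl hy
    exact ⟨m', hy⟩
  have e2 : ∀ m, ∃ m', NN X H (1 / 50) (Sum.inl m') (Sum.inl m) := by
    intro m
    obtain ⟨y, hy⟩ := NN_total X H.symm (Sum.inl m) h50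
    obtain ⟨m', rfl⟩ := NN_inl X H.symm le_rfl hy
    exact ⟨m', (NN_symm X H).1 hy⟩
  choose φ hφ using e1
  choose φ' hφ' using e2
  have k1 : ∀ m, φ' (φ m) = m := by
    intro m
    have a1 := (NN_symm X H).2 (hφ m)
    have a2 := (NN_symm X H).2 (hφ' (φ m))
    exact NN_uniq X H.symm le_rfl le_rfl a2 a1
  have k2 : ∀ m, φ (φ' m) = m := by
    intro m
    exact NN_uniq X H le_rfl le_rfl (hφ (φ' m)) (hφ' m)
  have key := path_rigid φ φ' k1 k2 (fun m m' => lbl_adj X (f := f) (g := g) (NN_dist X H (hφ m) (hφ m')))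
  have k3 : NN X H (1 / 50) (Sum.inl m) (Sum.inl m) := by
    have := hφ m
    rw [key] at this
    exact this
  have hmin : 0 < min η (1 / 50) := lt_min hη h50
  obtain ⟨y, hy⟩ := NN_total X H (Sum.inl m) hmin
  obtain ⟨m', rfl⟩ := NN_inl X H (min_le_right _ _) hy
  have k4 := NN_uniq X H (min_le_right _ _) le_rfl hy k3
  subst k4
  exact lt_of_lt_of_le hy (min_le_left _ _)

theorem NN_inr (H : MM (theta X f) ≃ᵢ MM (theta X g)) {p : List ℕ × ℕ} {y : TT'} {η : ℝ}
    (hη : η ≤ 1 / 50) (h : NN X H η (Sum.inr p) y) : ∃ q, y = Sum.inr q := by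
  rcases y with m' | q
  · exfalso
    have h1 := NN_lab X H m' (show (0 : ℝ) < 1 / 50 by norm_num)
    have h2 := abs_lt.1 (NN_dist X H h h1)
    rw [WX_self X] at h2
    have h3 := (vl'_mem f (lab' m') p.1).1
    simp only [WX] at h2
    linarith [h2.2]
  · exact ⟨q, rfl⟩

theorem NN_vl (H : MM (theta X f) ≃ᵢ MM (theta X g)) {p q : List ℕ × ℕ} {η : ℝ}
    (h : NN X H η (Sum.inr p) (Sum.inr q)) (l : Lb') :
    |vl' f l p.1 - vl' g l q.1| ≤ 10 * η := by
  obtain ⟨m, hm⟩ := lab'_surj l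
  apply le_of_forall_pos_le_add
  intro κ hκ
  have h1 := NN_lab X H m (show 0 < κ / 10 by linarith)
  have h2 := abs_lt.1 (NN_dist X H h h1)
  simp only [WX] at h2
  rw [hm] at h2
  rw [abs_le]
  constructor <;> linarith [h2.1, h2.2]

theorem NN_len (H : MM (theta X f) ≃ᵢ MM (theta X g)) {p q : List ℕ × ℕ} {η : ℝ}
    (hη : η ≤ 1 / 50) (h : NN X H η (Sum.inr p) (Sum.inr q)) : p.1.length = q.1.length := by
  have h1 := NN_vl X H h (Sum.inr p.1.length)
  simp only [vl', if_true] at h1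
  by_contra hne
  rw [if_neg (fun e => hne e.symm)] at h1
  rw [abs_le] at h1
  linarith [h1.2]

theorem tp_same {p q : List ℕ × ℕ} (h : p.1.length = q.1.length) :
    tp X f g p q = (1 / 10) * max (dd X f g p.1 q.1) (mx p q) := by
  unfold tp of EE
  rw [if_pos h, if_pos h]
  ring

theorem tp_succ {p q : List ℕ × ℕ} (h : q.1.length = p.1.length + 1) :
    tp X f g p q = 7 / 10 + (1 / 10) * max (dd X f g p.1 q.1.tail) (mx p q) := by
  unfold tp of EE
  rw [if_neg (by omega), if_neg (by omega), if_pos h]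

end Pool.Agent.H655.GS
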