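import Pool.Agent.H655.GS.Rank
import Pool.Agent.H655.GE.Meas

/-! Boundedness: an analytic set of pairs at positive distance is excluded at a countable stage. -/

namespace Pool.Agent.H655.GS

open Set Filter Topology Pool.Agent.H655.UR
open Pool.Agent.H655.GE (Rel Cor Lb' vl' vl'_mem vl'_rel gh_zero ev_cont)
open scoped ENNReal

/-- The tolerance of the `k`-th list at length `n`. -/
noncomputable def er (k n : ℕ) : ℝ := 1 / ((k : ℝ) + 2) * (1 - (1 / 2) ^ (n + 1))

theorem er_pos (k n : ℕ) : 0 < er k n := by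
  have h1 : (1 / 2 : ℝ) ^ (n + 1) < 1 := pow_lt_one₀ (by norm_num) (by norm_num) (by omega)
  unfold er
  have h2 : (0 : ℝ) < 1 / ((k : ℝ) + 2) := by positivity
  exact mul_pos h2 (by linarith)

theorem er_lt (k n : ℕ) : er k n < er k (n + 1) := by
  have h2 : (0 : ℝ) < 1 / ((k : ℝ) + 2) := by positivity
  have h3 : (1 / 2 : ℝ) ^ (n + 1 + 1) = (1 / 2) ^ (n + 1) / 2 := by ring
  have h4 : (0 : ℝ) < (1 / 2 : ℝ) ^ (n + 1) := by positivity
  unfold er
  apply mul_lt_mul_of_pos_left _ h2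
  linarith

theorem er_le (k n : ℕ) : er k n ≤ 1 / ((k : ℝ) + 2) := by
  have h2 : (0 : ℝ) < 1 / ((k : ℝ) + 2) := by positivity
  have h4 : (0 : ℝ) < (1 / 2 : ℝ) ^ (n + 1) := by positivity
  unfold er
  nlinarith

theorem er_lt_one (k n : ℕ) : er k n < 1 := by
  refine (er_le k n).trans_lt ?_
  rw [div_lt_one (by positivity)]
  have : (0 : ℝ) ≤ k := Nat.cast_nonneg k
  linarith

theorem dist_of_zero {f g : Met} {L : List (ℕ × ℕ)} {ε : ℝ} (hε : ε < 1)
    (h : RA CO.zero f g (L.map Prod.fst) (L.map Prod.snd) ε) {p q : ℕ × ℕ} (hp : p ∈ L)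
    (hq : q ∈ L) : |f.1 p.1 q.1 - g.1 p.2 q.2| ≤ ε := by
  obtain ⟨k, hk, hk'⟩ := List.getElem_of_mem hp
  obtain ⟨k', hk1, hk1'⟩ := List.getElem_of_mem hq
  have g1 : (L.map Prod.fst).getD k 0 = p.1 := by
    rw [List.getD_eq_getElem _ _ (by simpa using hk), List.getElem_map, hk']
  have g2 : (L.map Prod.snd).getD k 0 = p.2 := by
    rw [List.getD_eq_getElem _ _ (by simpa using hk), List.getElem_map, hk']
  have g3 : (L.map Prod.fst).getD k' 0 = q.1 := by
    rw [List.getD_eq_getElem _ _ (by simpa using hk1), List.getElem_map, hk1']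
  have g4 : (L.map Prod.snd).getD k' 0 = q.2 := by
    rw [List.getD_eq_getElem _ _ (by simpa using hk1), List.getElem_map, hk1']
  refine kp_dec hε fun r => ?_
  have hr := h (Sum.inl (k, k', r))
  simp only [vl', List.length_map] at hr
  rw [if_pos ⟨hk, hk1⟩, if_pos ⟨hk, hk1⟩, g1, g2, g3, g4] at hr
  exact hr

variable (φ : (ℕ → ℕ) → Met × Met)

/-- The lists are related at stage `α`. -/
def GG (α : CO) (x : ℕ → ℕ) (L : ℕ → List (ℕ × ℕ)) : Prop :=
  ∀ k, RA α (φ x).1 (φ x).2 ((L k).map Prod.fst) ((L k).map Prod.snd) (er k (L k).length)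

/-- At every stage some pair is related. -/
def Large (n : ℕ) (x₀ : ℕ → ℕ) (L : ℕ → List (ℕ × ℕ)) : Prop :=
  ∀ α, ∃ x, (∀ i < n, x i = x₀ i) ∧ GG φ α x L

variable {φ}

theorem large_x {n : ℕ} {x₀ : ℕ → ℕ} {L : ℕ → List (ℕ × ℕ)} (h : Large φ n x₀ L) :
    ∃ m, Large φ (n + 1) (Function.update x₀ n m) L := by
  by_contra hc
  simp only [Large, not_exists, not_forall, not_and] at hc
  choose α hα using hc
  obtain ⟨x, hx, hG⟩ := h (CO.lim α)
  refine hα (x n) x ?_ fun k => hG k (x n)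
  intro i hi
  rcases Nat.lt_succ_iff_lt_or_eq.1 hi with h1 | rfl
  · rw [Function.update_of_ne (by omega)]
    exact hx i h1
  · simp

theorem large_f {n : ℕ} {x₀ : ℕ → ℕ} {L : ℕ → List (ℕ × ℕ)} (h : Large φ n x₀ L) (k a : ℕ) :
    ∃ b, Large φ n x₀ (Function.update L k ((a, b) :: L k)) := by
  by_contra hc
  simp only [Large, not_exists, not_forall, not_and] at hc
  choose α hα using hc
  obtain ⟨x, hx, hG⟩ := h (CO.succ (CO.lim α))
  obtain ⟨q, hq1, hq2⟩ := exists_rat_btwn (er_lt k (L k).length)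
  obtain ⟨b, hb⟩ := (hG k).2.1 a q hq1
  refine hα b x hx fun k' => ?_
  by_cases hk : k' = k
  · subst hk
    simp only [Function.update_self, List.map_cons, List.length_cons]
    exact (hb b).mono hq2.le
  · rw [Function.update_of_ne hk]
    exact (hG k').1 b

theorem large_b {n : ℕ} {x₀ : ℕ → ℕ} {L : ℕ → List (ℕ × ℕ)} (h : Large φ n x₀ L) (k b : ℕ) :
    ∃ a, Large φ n x₀ (Function.update L k ((a, b) :: L k)) := by
  by_contra hc
  simp only [Large, not_exists, not_forall, not_and] at hc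
  choose α hα using hc
  obtain ⟨x, hx, hG⟩ := h (CO.succ (CO.lim α))
  obtain ⟨q, hq1, hq2⟩ := exists_rat_btwn (er_lt k (L k).length)
  obtain ⟨a, ha⟩ := (hG k).2.2 b q hq1
  refine hα a x hx fun k' => ?_
  by_cases hk : k' = k
  · subst hk
    simp only [Function.update_self, List.map_cons, List.length_cons]
    exact (ha a).mono hq2.le
  · rw [Function.update_of_ne hk]
    exact (hG k').1 a

theorem upd_mem {L : ℕ → List (ℕ × ℕ)} (k : ℕ) (c : ℕ × ℕ) {k' : ℕ} {p : ℕ × ℕ} (h : p ∈ L k') :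
    p ∈ Function.update L k (c :: L k) k' := by
  by_cases hk : k' = k
  · subst hk
    rw [Function.update_self]
    exact List.mem_cons_of_mem _ h
  · rw [Function.update_of_ne hk]
    exact h

theorem large_step {n : ℕ} {x₀ : ℕ → ℕ} {L : ℕ → List (ℕ × ℕ)} (h : Large φ n x₀ L) (k c : ℕ) :
    ∃ (x₁ : ℕ → ℕ) (L₁ : ℕ → List (ℕ × ℕ)), Large φ (n + 1) x₁ L₁ ∧ (∀ i < n, x₁ i = x₀ i) ∧
      (∀ k' p, p ∈ L k' → p ∈ L₁ k') ∧ (∃ b, (c, b) ∈ L₁ k) ∧ ∃ a, (a, c) ∈ L₁ k := by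
  obtain ⟨m, h1⟩ := large_x h
  obtain ⟨b, h2⟩ := large_f h1 k c
  obtain ⟨a, h3⟩ := large_b h2 k c
  refine ⟨_, _, h3, ?_, ?_, ⟨b, ?_⟩, ⟨a, ?_⟩⟩
  · intro i hi
    rw [Function.update_of_ne (by omega)]
  · intro k' p hp
    exact upd_mem k _ (upd_mem k _ hp)
  · refine upd_mem k _ ?_
    rw [Function.update_self]
    exact List.mem_cons_self
  · rw [Function.update_self]
    exact List.mem_cons_self

/-- The limit of large conditions. -/
theorem exists_limit (hφ : Continuous φ) (h0 : Large φ 0 0 fun _ => []) :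
    ∃ x, rhoGH (φ x).1 (φ x).2 = 0 := by
  choose X1 L1 h1 h2 h3 h4 h5 using
    fun (n : ℕ) (p : {p : (ℕ → ℕ) × (ℕ → List (ℕ × ℕ)) // Large φ n p.1 p.2}) (m : ℕ × ℕ) =>
      large_step p.2 m.1 m.2
  let S : (n : ℕ) → {p : (ℕ → ℕ) × (ℕ → List (ℕ × ℕ)) // Large φ n p.1 p.2} := fun n =>
    Nat.rec ⟨(0, fun _ => []), h0⟩
      (fun n p => ⟨(X1 n p (Nat.unpair n), L1 n p (Nat.unpair n)), h1 n p (Nat.unpair n)⟩) n
  have hX : ∀ n, (S (n + 1)).1.1 = X1 n (S n) (Nat.unpair n) := fun n => rfl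
  have hL : ∀ n, (S (n + 1)).1.2 = L1 n (S n) (Nat.unpair n) := fun n => rfl
  have hXs : ∀ i n, i + 1 ≤ n → (S n).1.1 i = (S (i + 1)).1.1 i := by
    intro i n hn
    induction n, hn using Nat.le_induction with
    | base => rfl
    | succ n hn ih =>
      rw [hX n, h2 n (S n) (Nat.unpair n) i (by omega)]
      exact ih
  have hLs : ∀ k p m n, m ≤ n → p ∈ (S m).1.2 k → p ∈ (S n).1.2 k := by
    intro k p m n hmn hp
    induction n, hmn using Nat.le_induction with
    | base => exact hp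
    | succ n hn ih =>
      rw [hL n]
      exact h3 n (S n) (Nat.unpair n) k p ih
  let x : ℕ → ℕ := fun i => (S (i + 1)).1.1 i
  refine ⟨x, gh_zero.2 fun ε hε => ?_⟩
  obtain ⟨k, hk⟩ := exists_nat_one_div_lt hε
  have hk2 : 1 / ((k : ℝ) + 2) ≤ ε := by
    refine le_trans ?_ hk.le
    exact one_div_le_one_div_of_le (by positivity) (by linarith)
  refine ⟨fun a b => ∃ n, (a, b) ∈ (S n).1.2 k, ⟨?_, ?_, ?_⟩, List.Forall₂.nil⟩
  · intro a
    obtain ⟨b, hb⟩ := h4 (Nat.pair k a) (S (Nat.pair k a)) (Nat.unpair (Nat.pair k a))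
    rw [← hL, Nat.unpair_pair] at hb
    exact ⟨b, _, hb⟩
  · intro b
    obtain ⟨a, ha⟩ := h5 (Nat.pair k b) (S (Nat.pair k b)) (Nat.unpair (Nat.pair k b))
    rw [← hL, Nat.unpair_pair] at ha
    exact ⟨a, _, ha⟩
  · rintro a b a' b' ⟨m, hm⟩ ⟨m', hm'⟩
    choose z hz1 hz2 using fun n => (S n).2 CO.zero
    have hlim : Tendsto z atTop (𝓝 x) := by
      rw [tendsto_pi_nhds]
      intro i
      refine tendsto_const_nhds.congr' ?_
      filter_upwards [eventually_ge_atTop (i + 1)] with n hn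
      rw [hz1 n i (by omega)]
      exact (hXs i n hn).symm
    have hc : Continuous fun w : ℕ → ℕ => |(φ w).1.1 a a' - (φ w).2.1 b b'| := by
      have e1 : Continuous fun w : ℕ → ℕ => (φ w).1.1 a a' :=
        (ev_cont a a').comp (continuous_fst.comp hφ)
      have e2 : Continuous fun w : ℕ → ℕ => (φ w).2.1 b b' :=
        (ev_cont b b').comp (continuous_snd.comp hφ)
      exact (e1.sub e2).abs
    refine le_trans ?_ hk2
    refine le_of_tendsto (hc.continuousAt.tendsto.comp hlim) ?_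
    filter_upwards [eventually_ge_atTop (max m m')] with n hn
    have p1 := hLs k _ m n ((le_max_left _ _).trans hn) hm
    have p2 := hLs k _ m' n ((le_max_right _ _).trans hn) hm'
    exact (dist_of_zero (er_lt_one k _) (hz2 n k) p1 p2).trans (er_le k _)

theorem bounded (hφ : Continuous φ) (h : ∀ x, rhoGH (φ x).1 (φ x).2 ≠ 0) :
    ∃ α, ∀ x, ¬ ∀ ε : ℝ, 0 < ε → RA α (φ x).1 (φ x).2 [] [] ε := by
  by_contra hc
  simp only [not_exists, not_forall, not_not] at hc
  obtain ⟨x, hx⟩ := exists_limit hφ fun α => by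
    obtain ⟨x, hx⟩ := hc α
    exact ⟨x, by simp, fun k => hx _ (er_pos k 0)⟩
  exact h x hx

end Pool.Agent.H655.GS
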