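import Pool.Agent.H655.GS.Sys

/-! The codes of a system of relations. -/

namespace Pool.Agent.H655.GS

open Set Pool.Agent.H655.UR
open Pool.Agent.H655.GE (Rel Cor xx xx_inj xx_dense mx mx_nonneg mx_le_one mx_symm mx_tri mx_self
  mx_pos mx_lt Lb' vl' vl'_mem lab' lab'_surj TT' enc' lb_bd of)
open scoped ENNReal

variable (X : RSys)

/-! ### Tuples -/

/-- The distance of tuples of the same or of neighbouring lengths. -/
noncomputable def EE (f g : Met) (s t : List ℕ) : ℝ :=
  if s.length = t.length then dd X f g s t
  else if t.length = s.length + 1 then dd X f g s t.tail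
  else if s.length = t.length + 1 then dd X f g s.tail t
  else 1

theorem EE_nonneg (f g : Met) (s t : List ℕ) : 0 ≤ EE X f g s t := by
  unfold EE
  split_ifs
  · exact dd_nonneg X _ _ _ _
  · exact dd_nonneg X _ _ _ _
  · exact dd_nonneg X _ _ _ _
  · exact zero_le_one

theorem EE_le_one (f g : Met) (s t : List ℕ) : EE X f g s t ≤ 1 := by
  unfold EE
  split_ifs
  · exact dd_le_one X _ _ _ _
  · exact dd_le_one X _ _ _ _
  · exact dd_le_one X _ _ _ _
  · exact le_rfl

theorem EE_symm (f g : Met) (s t : List ℕ) : EE X f g s t = EE X g f t s := by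
  unfold EE
  split_ifs <;> first | rfl | exact dd_symm X _ _ _ _ | (exfalso; omega)

theorem EE_tri (f g h : Met) {s t : List ℕ} (hst : s.length = t.length) (u : List ℕ) :
    EE X f h s u ≤ dd X f g s t + EE X g h t u := by
  unfold EE
  rw [hst]
  split_ifs
  · exact dd_tri X _ _ _ _ _ _
  · exact dd_tri X _ _ _ _ _ _
  · have h1 := dd_tri X f g h s.tail t.tail u
    have h2 := dd_tail X f g s t
    linarith
  · have := dd_nonneg X f g s t
    linarith

/-- The distances of two tuple points. -/
noncomputable def tp (f g : Met) (p q : List ℕ × ℕ) : ℝ :=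
  of p.1 q.1 + (1 / 10) * max (EE X f g p.1 q.1) (mx p q)

/-- The distances in the code and between two codes. -/
noncomputable def WX (f g : Met) : TT' → TT' → ℝ
  | Sum.inl m, Sum.inl m' => if m = m' then 0 else if m + 1 = m' ∨ m' + 1 = m then 9 / 10 else 1
  | Sum.inl m, Sum.inr q => 1 / 2 + (1 / 10) * vl' g (lab' m) q.1
  | Sum.inr p, Sum.inl m => 1 / 2 + (1 / 10) * vl' f (lab' m) p.1
  | Sum.inr p, Sum.inr q => tp X f g p q

theorem tp_nonneg (f g : Met) (p q : List ℕ × ℕ) : 0 ≤ tp X f g p q := by
  unfold tp of
  have := le_max_of_le_left (c := mx p q) (EE_nonneg X f g p.1 q.1)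
  split_ifs <;> linarith

theorem tp_le (f g : Met) (p q : List ℕ × ℕ) : tp X f g p q ≤ 8 / 10 := by
  unfold tp of
  have := max_le (EE_le_one X f g p.1 q.1) (mx_le_one p q)
  split_ifs <;> linarith

theorem tp_symm (f g : Met) (p q : List ℕ × ℕ) : tp X f g p q = tp X g f q p := by
  unfold tp of
  rw [EE_symm X, mx_symm]
  congr 1
  by_cases h : p.1.length = q.1.length
  · rw [if_pos h, if_pos h.symm]
  · rw [if_neg h, if_neg (fun e => h e.symm)]

theorem tp_tri1 (f g h : Met) {p q : List ℕ × ℕ} (hpq : p.1.length = q.1.length)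
    (r : List ℕ × ℕ) : tp X f h p r ≤ tp X f g p q + tp X g h q r := by
  unfold tp
  have h1 : of p.1 q.1 = 0 := if_pos hpq
  have h2 : of p.1 r.1 = of q.1 r.1 := by
    unfold of
    rw [hpq]
  rw [h1, h2]
  have h3 := EE_tri X f g h hpq r.1
  have h4 := mx_tri p q r
  have h5 : EE X f g p.1 q.1 = dd X f g p.1 q.1 := if_pos hpq
  rw [← h5] at h3
  have h6 : max (EE X f h p.1 r.1) (mx p r) ≤
      max (EE X f g p.1 q.1) (mx p q) + max (EE X g h q.1 r.1) (mx q r) := by
    apply max_le
    · exact h3.trans (add_le_add (le_max_left _ _) (le_max_left _ _))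
    · exact h4.trans (add_le_add (le_max_right _ _) (le_max_right _ _))
  linarith

theorem tp_tri (f g h : Met) (p q r : List ℕ × ℕ) : tp X f h p r ≤ tp X f g p q + tp X g h q r := by
  by_cases h1 : p.1.length = q.1.length
  · exact tp_tri1 X f g h h1 r
  by_cases h2 : q.1.length = r.1.length
  · rw [tp_symm X f h, tp_symm X f g, tp_symm X g h, add_comm]
    exact tp_tri1 X h g f h2.symm p
  · have h3 := tp_le X f h p r
    have h4 : 7 / 10 ≤ tp X f g p q := by
      unfold tp of
      rw [if_neg h1]
      have := le_max_of_le_left (c := mx p q) (EE_nonneg X f g p.1 q.1)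
      linarith
    have h5 : 7 / 10 ≤ tp X g h q r := by
      unfold tp of
      rw [if_neg h2]
      have := le_max_of_le_left (c := mx q r) (EE_nonneg X g h q.1 r.1)
      linarith
    linarith

theorem tp_vl (f g : Met) (p q : List ℕ × ℕ) (l : Lb') :
    (1 / 10) * |vl' f l p.1 - vl' g l q.1| ≤ tp X f g p q := by
  by_cases h : p.1.length = q.1.length
  · have h1 : EE X f g p.1 q.1 = dd X f g p.1 q.1 := if_pos h
    have h2 := vl'_lip X (f := f) (g := g) (s := p.1) (t := q.1) l
    have h3 : of p.1 q.1 = 0 := if_pos h
    have h4 := le_max_left (EE X f g p.1 q.1) (mx p q)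
    unfold tp
    rw [h3]
    linarith
  · have h1 := vl'_mem f l p.1
    have h2 := vl'_mem g l q.1
    have h3 : |vl' f l p.1 - vl' g l q.1| ≤ 1 := by
      rw [abs_le]
      constructor <;> linarith
    have h4 : 7 / 10 ≤ tp X f g p q := by
      unfold tp of
      rw [if_neg h]
      have := le_max_of_le_left (c := mx p q) (EE_nonneg X f g p.1 q.1)
      linarith
    linarith

theorem WX_symm (f g : Met) (x y : TT') : WX X f g x y = WX X g f y x := by
  rcases x with m | p <;> rcases y with m' | q
  · simp only [WX]
    split_ifs <;> first | rfl | (exfalso; omega)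
  · rfl
  · rfl
  · exact tp_symm X f g p q

theorem WX_self (f : Met) (x : TT') : WX X f f x x = 0 := by
  rcases x with m | p
  · simp [WX]
  · show tp X f f p p = 0
    unfold tp of EE
    simp [dd_self, mx_self]

theorem WX_pos (f : Met) {x y : TT'} (h : x ≠ y) : 0 < WX X f f x y := by
  rcases x with m | p <;> rcases y with m' | q
  · have h1 : m ≠ m' := fun e => h (by rw [e])
    have := (lb_bd m m').2.2 h1
    simp only [WX]
    linarith
  · have := (vl'_mem f (lab' m) q.1).1
    simp only [WX]
    linarith
  · have := (vl'_mem f (lab' m') p.1).1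
    simp only [WX]
    linarith
  · have h1 : p ≠ q := fun e => h (by rw [e])
    have h2 := mx_pos h1
    show 0 < tp X f f p q
    unfold tp of
    have := le_max_right (EE X f f p.1 q.1) (mx p q)
    split_ifs <;> linarith

theorem WX_tri (f g h : Met) (x y z : TT') : WX X f h x z ≤ WX X f g x y + WX X g h y z := by
  rcases x with m | p <;> rcases y with m' | q <;> rcases z with m'' | r
  · simp only [WX]
    have h1 := lb_bd m m'
    have h2 := lb_bd m' m''
    have h3 := lb_bd m m''
    by_cases e1 : m = m'
    · subst e1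
      simp only [if_true]
      linarith
    · by_cases e2 : m' = m''
      · subst e2
        simp only [if_true]
        linarith
      · have := h1.2.2 e1
        have := h2.2.2 e2
        linarith [h3.2.1]
  · simp only [WX]
    have h1 := lb_bd m m'
    have h2 := vl'_mem h (lab' m) r.1
    have h3 := vl'_mem h (lab' m') r.1
    by_cases e1 : m = m'
    · subst e1
      simp only [if_true]
      linarith
    · have := h1.2.2 e1
      linarith
  · simp only [WX]
    have h1 := lb_bd m m''
    have h2 := vl'_mem g (lab' m) q.1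
    have h3 := vl'_mem g (lab' m'') q.1
    linarith
  · simp only [WX]
    have h1 := tp_vl X g h q r (lab' m)
    have h2 := abs_le.1 (le_refl |vl' g (lab' m) q.1 - vl' h (lab' m) r.1|)
    linarith
  · simp only [WX]
    have h1 := lb_bd m' m''
    have h2 := vl'_mem f (lab' m') p.1
    have h3 := vl'_mem f (lab' m'') p.1
    by_cases e1 : m' = m''
    · subst e1
      simp only [if_true]
      linarith
    · have := h1.2.2 e1
      linarith
  · simp only [WX]
    have h1 := tp_le X f h p r
    have h2 := vl'_mem f (lab' m') p.1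
    have h3 := vl'_mem h (lab' m') r.1
    linarith
  · simp only [WX]
    have h1 := tp_vl X f g p q (lab' m'')
    have h2 := abs_le.1 (le_refl |vl' f (lab' m'') p.1 - vl' g (lab' m'') q.1|)
    linarith
  · exact tp_tri X f g h p q r

/-- The code: the metric on `ℕ` of the type spaces of `f`. -/
noncomputable def theta (f : Met) : Met :=
  ⟨fun n m => WX X f f (enc'.symm n) (enc'.symm m), by
    refine ⟨fun n m => ?_, fun n m => WX_symm X _ _ _ _, fun n m k => WX_tri X _ _ _ _ _ _⟩
    by_cases h : n = m
    · subst h
      simp [WX_self]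
    · have h' : enc'.symm n ≠ enc'.symm m := fun e => h (enc'.symm.injective e)
      have := WX_pos X f h'
      constructor
      · intro h0
        linarith
      · intro h0
        exact absurd h0 h⟩

/-- The points of the completed code. -/
noncomputable def pp (f : Met) (x : TT') : MM (theta X f) := inc (theta X f) (enc' x)

theorem pp_dist (f : Met) (x y : TT') : dist (pp X f x) (pp X f y) = WX X f f x y := by
  unfold pp
  rw [inc_dist]
  show WX X f f (enc'.symm (enc' x)) (enc'.symm (enc' y)) = _
  rw [Equiv.symm_apply_apply, Equiv.symm_apply_apply]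

theorem pp_dense (f : Met) : DenseRange (pp X f) := by
  have h := inc_dense (theta X f)
  have h2 : range (inc (theta X f)) ⊆ range (pp X f) := by
    rintro _ ⟨n, rfl⟩
    exact ⟨enc'.symm n, by simp [pp]⟩
  exact h.mono h2

end Pool.Agent.H655.GS
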