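import Pool.Agent.H655.GS.Ax

/-!
Connectedness of the coded manifold is a Borel condition on the code.
-/

set_option linter.unusedSectionVars false

open Set Filter Topology
open scoped MeasureTheory

namespace Pool.Agent.H655.GS

open Pool.Agent.H655.GM

variable {E : Type} [MetricSpace E] [ProperSpace E] [GM.Mod E]

/-- The open ball of the chart `b.1` with index `b`, if its closure lies in the chart. -/
def bl (c : Code E) (b : ℕ × ℕ × ℕ) : Set c.Pts :=
  {w | (cb b : Set E) ⊆ c.V b.1 b.1 ∧ ∃ y ∈ (ob b : Set E), (b.1, y) ∈ w.val}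

theorem bl_open (c : Code E) (b : ℕ × ℕ × ℕ) : IsOpen (bl c b) := by
  by_cases h : (cb b : Set E) ⊆ c.V b.1 b.1
  · have : bl c b = {w : c.Pts | ∃ y ∈ (ob b : Set E), (b.1, y) ∈ w.val} := by
      ext w
      exact ⟨fun hw => hw.2, fun hw => ⟨h, hw⟩⟩
    rw [this]
    exact c.isOpen_chart b.1 (ob_open b)
  · have : bl c b = ∅ := by
      ext w
      exact ⟨fun hw => absurd hw.1 h, fun hw => hw.elim⟩
    rw [this]
    exact isOpen_empty

theorem ob_nonempty (b : ℕ × ℕ × ℕ) : (ob b : Set E).Nonempty :=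
  ⟨_, Metric.mem_ball_self (by positivity)⟩

theorem bl_eq (c : Code E) (b : ℕ × ℕ × ℕ) (h : (cb b : Set E) ⊆ c.V b.1 b.1) :
    bl c b = (c.mk' b.1) '' (Subtype.val ⁻¹' (ob b)) := by
  ext w
  constructor
  · rintro ⟨_, y, hy, hyw⟩
    have h1 := (mem_iff w.mem _).1 hyw
    refine ⟨⟨y, h (ob_sub_cb b hy)⟩, hy, ?_⟩
    apply Code.Pts.ext
    exact h1.2.symm
  · rintro ⟨⟨y, hy⟩, hyb, rfl⟩
    exact ⟨h, y, hyb, mem_cls_self hy⟩

theorem bl_nonempty (c : Code E) (b : ℕ × ℕ × ℕ) :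
    (bl c b).Nonempty ↔ (cb b : Set E) ⊆ c.V b.1 b.1 := by
  constructor
  · rintro ⟨w, hw⟩
    exact hw.1
  · intro h
    obtain ⟨y, hy⟩ := ob_nonempty (E := E) b
    exact ⟨c.mk' b.1 ⟨y, h (ob_sub_cb b hy)⟩, h, y, hy, mem_cls_self (h (ob_sub_cb b hy))⟩

theorem bl_preconnected (c : Code E) (b : ℕ × ℕ × ℕ) : IsPreconnected (bl c b) := by
  by_cases h : (cb b : Set E) ⊆ c.V b.1 b.1
  · rw [bl_eq c b h]
    refine IsPreconnected.image ?_ _ (c.continuous_mk' b.1).continuousOn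
    have h1 : IsPreconnected (ob b : Set E) := GM.Mod.con _ _
    rw [← Topology.IsInducing.subtypeVal.isPreconnected_image]
    rw [Subtype.image_preimage_coe, inter_eq_right.2 ((ob_sub_cb b).trans h)]
    exact h1
  · have : bl c b = ∅ := by
      rw [← not_nonempty_iff_eq_empty, bl_nonempty]
      exact h
    rw [this]
    exact isPreconnected_empty

theorem bl_cover (c : Code E) : (⋃ b, bl c b) = univ := by
  rw [eq_univ_iff_forall]
  intro w
  obtain ⟨i, y, hy⟩ := c.exists_idx w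
  have h1 := (mem_iff w.mem _).1 hy
  obtain ⟨b, hbi, hyb, hb⟩ := exists_rb i ((c.isOpen i i).mem_nhds h1.1)
  subst hbi
  exact mem_iUnion.2 ⟨b, hb, y, hyb, hy⟩

/-- Adjacency of balls. -/
def Adj (c : Code E) (b b' : ℕ × ℕ × ℕ) : Prop := (bl c b ∩ bl c b').Nonempty

theorem adj_iff (c : Code E) (b b' : ℕ × ℕ × ℕ) :
    Adj c b b' ↔ (cb b : Set E) ⊆ c.V b.1 b.1 ∧ (cb b' : Set E) ⊆ c.V b'.1 b'.1 ∧
      ∃ n, D E n ∈ (ob b : Set E) ∧ D E n ∈ c.V b.1 b'.1 ∧ c.φ b.1 b'.1 (D E n) ∈ (ob b' : Set E) := by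
  constructor
  · rintro ⟨w, ⟨h1, y, hy, hyw⟩, h2, y', hy', hyw'⟩
    refine ⟨h1, h2, ?_⟩
    have e1 := (mem_iff w.mem _).1 hyw
    have e2 := (mem_iff w.mem _).1 hyw'
    have e3 : y ∈ c.V b.1 b'.1 ∧ c.φ b.1 b'.1 y = y' := (cls_eq_iff e2.1).1 (e1.2.symm.trans e2.2)
    have e4 : ∀ᶠ z in 𝓝 y, z ∈ (ob b : Set E) ∧ z ∈ c.V b.1 b'.1 ∧ c.φ b.1 b'.1 z ∈ (ob b' : Set E) := by
      filter_upwards [(ob_open b).mem_nhds hy, (c.isOpen _ _).mem_nhds e3.1,
        (c.continuousAt e3.1).eventually ((ob_open b').mem_nhds (by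
          rw [e3.2]
          exact hy'))] with z z1 z2 z3
      exact ⟨z1, z2, z3⟩
    obtain ⟨n, hn⟩ := ((tendsto_D y).eventually e4).exists
    exact ⟨n, hn⟩
  · rintro ⟨h1, h2, n, hn, hnV, hnb⟩
    have hx : D E n ∈ c.V b.1 b.1 := h1 (ob_sub_cb b hn)
    exact ⟨c.mk' b.1 ⟨D E n, hx⟩, ⟨h1, D E n, hn, mem_cls_self hx⟩, h2, c.φ b.1 b'.1 (D E n), hnb,
      hnV, rfl⟩

theorem connected_iff (c : Code E) : ConnectedSpace c.Pts ↔
    (∃ b : ℕ × ℕ × ℕ, (cb b : Set E) ⊆ c.V b.1 b.1) ∧ ∀ b b' : ℕ × ℕ × ℕ,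
      (cb b : Set E) ⊆ c.V b.1 b.1 → (cb b' : Set E) ⊆ c.V b'.1 b'.1 →
        Relation.TransGen (Adj c) b b' := by
  constructor
  · intro h
    constructor
    · obtain ⟨w⟩ := h.toNonempty
      have : w ∈ ⋃ b, bl c b := by
        rw [bl_cover]
        trivial
      obtain ⟨b, hb⟩ := mem_iUnion.1 this
      exact ⟨b, hb.1⟩
    · intro b b' hb hb'
      have h1 : IsPreconnected (⋃ b, bl c b) := by
        rw [bl_cover]
        exact isPreconnected_univ
      exact h1.transGen_of_iUnion (bl_open c) b b' ((bl_nonempty c b).2 hb) ((bl_nonempty c b').2 hb')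
  · rintro ⟨⟨b, hb⟩, h⟩
    have h1 : IsPreconnected (⋃ b ∈ {b : ℕ × ℕ × ℕ | (cb b : Set E) ⊆ c.V b.1 b.1}, bl c b) := by
      refine IsPreconnected.biUnion_of_reflTransGen (fun b _ => bl_preconnected c b) ?_
      intro i hi j hj
      have h2 := (h i j hi hj).to_reflTransGen
      have h3 : ∀ a a', Adj c a a' → (bl c a ∩ bl c a').Nonempty ∧
          a ∈ {b : ℕ × ℕ × ℕ | (cb b : Set E) ⊆ c.V b.1 b.1} := fun a a' haa =>
        ⟨haa, ((adj_iff c a a').1 haa).1⟩
      exact Relation.ReflTransGen.mono h3 _ _ h2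
    have h2 : (⋃ b ∈ {b : ℕ × ℕ × ℕ | (cb b : Set E) ⊆ c.V b.1 b.1}, bl c b) = univ := by
      rw [← bl_cover c]
      ext w
      simp only [mem_iUnion]
      constructor
      · rintro ⟨b, _, hw⟩
        exact ⟨b, hw⟩
      · rintro ⟨b, hw⟩
        exact ⟨b, hw.1, hw⟩
    rw [h2] at h1
    obtain ⟨w, _⟩ := (bl_nonempty c b).2 hb
    exact { isPreconnected_univ := h1, toNonempty := ⟨w⟩ }

/-- Chains of a given length. -/
def chain {X I : Type} (r : X → I → I → Prop) : ℕ → X → I → I → Prop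
  | 0, x, a, b => r x a b
  | (k + 1), x, a, b => ∃ a', chain r k x a a' ∧ r x a' b

theorem transGen_iff {X I : Type} (r : X → I → I → Prop) (x : X) (a b : I) :
    Relation.TransGen (r x) a b ↔ ∃ k, chain r k x a b := by
  constructor
  · intro h
    induction h with
    | single h => exact ⟨0, h⟩
    | tail _ h ih =>
      obtain ⟨k, hk⟩ := ih
      exact ⟨k + 1, _, hk, h⟩
  · rintro ⟨k, hk⟩
    induction k generalizing b with
    | zero => exact Relation.TransGen.single hk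
    | succ k ih =>
      obtain ⟨a', h1, h2⟩ := hk
      exact (ih a' h1).tail h2

theorem chain_meas {X I : Type} [MeasurableSpace X] [Countable I] {r : X → I → I → Prop}
    (hr : ∀ a b, Measurable (fun x => r x a b)) (k : ℕ) (a b : I) :
    Measurable (fun x => chain r k x a b) := by
  induction k generalizing b with
  | zero => exact hr a b
  | succ k ih => exact Measurable.exists fun a' => (ih a').and (hr a' b)

theorem connected_meas : MeasurableSet {c : Code E | ConnectedSpace c.Pts} := by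
  have hb : ∀ b : ℕ × ℕ × ℕ, Measurable (fun c : Code E => (cb b : Set E) ⊆ c.V b.1 b.1) :=
    fun b => measurableSet_setOfPred.1 (meas_compact _ _ (cb_compact b))
  have ha : ∀ b b' : ℕ × ℕ × ℕ, Measurable (fun c : Code E => Adj c b b') := by
    intro b b'
    have h1 : (fun c : Code E => Adj c b b') = fun c : Code E =>
        (cb b : Set E) ⊆ c.V b.1 b.1 ∧ (cb b' : Set E) ⊆ c.V b'.1 b'.1 ∧
      ∃ n, D E n ∈ (ob b : Set E) ∧ D E n ∈ c.V b.1 b'.1 ∧
        c.φ b.1 b'.1 (D E n) ∈ (ob b' : Set E) := by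
      funext c
      exact propext (adj_iff c b b')
    rw [h1]
    refine (hb b).and ((hb b').and (Measurable.exists fun n => measurable_const.and
      (Measurable.and ?_ ?_)))
    · exact measurableSet_setOfPred.1 (meas_mem _ _ _)
    · borelize E
      exact measurableSet_setOfPred.1 (meas_val _ _ _ (ob_open b').measurableSet)
  have h1 : {c : Code E | ConnectedSpace c.Pts} = {c : Code E |
      (∃ b : ℕ × ℕ × ℕ, (cb b : Set E) ⊆ c.V b.1 b.1) ∧ ∀ b b' : ℕ × ℕ × ℕ,
      (cb b : Set E) ⊆ c.V b.1 b.1 → (cb b' : Set E) ⊆ c.V b'.1 b'.1 →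
        ∃ k, chain Adj k c b b'} := by
    ext c
    simp only [mem_ofPred_eq]
    rw [connected_iff]
    simp only [transGen_iff (Adj (E := E)) c]
  rw [h1]
  refine measurableSet_setOfPred.2 ?_
  exact (Measurable.exists hb).and (Measurable.forall fun b => Measurable.forall fun b' =>
    (hb b).imp ((hb b').imp (Measurable.exists fun k => chain_meas ha k b b')))

/-- The space of codes of connected manifolds is standard Borel. -/
theorem sb_conn : StandardBorelSpace {c : Code E // ConnectedSpace c.Pts} :=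
  (connected_meas (E := E)).standardBorel

end Pool.Agent.H655.GS
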