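import Pool.Agent.H655.GS.Meas

/-! Final form of the theorems on the stages. -/

namespace Pool.Agent.H655.GS

open Set Pool.Agent.H655.UR MeasureTheory TopologicalSpace

theorem sep (A : Set (Met × Met)) (hA : AnalyticSet A) (h : ∀ p ∈ A, rhoGH p.1 p.2 ≠ 0) :
    ∃ θ : Met → Met, Measurable θ ∧
      (∀ f g, rhoGH f g = 0 → Nonempty (MM (θ f) ≃ᵢ MM (θ g))) ∧
      ∀ p ∈ A, ¬ Nonempty (MM (θ p.1) ≃ᵢ MM (θ p.2)) := by
  rw [AnalyticSet] at hA
  obtain ⟨α, hα⟩ : ∃ α : CO, ∀ p ∈ A, ¬ ∀ ε : ℝ, 0 < ε → RA α p.1 p.2 [] [] ε := by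
    rcases hA with hA | ⟨φ, hφ, hr⟩
    · exact ⟨CO.zero, fun p hp => absurd hp (by rw [hA]; simp)⟩
    · obtain ⟨α, hα⟩ := bounded hφ fun x => h _ (by rw [← hr]; exact ⟨x, rfl⟩)
      refine ⟨α, fun p hp => ?_⟩
      rw [← hr] at hp
      obtain ⟨x, rfl⟩ := hp
      exact hα x
  refine ⟨theta (sysA α), sysA_meas α, fun f g hfg => fwd (sysA α) hfg, ?_⟩
  rintro p hp ⟨H⟩
  exact hα p hp fun ε hε => root α H hε

instance : SecondCountableTopology Met :=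
  Subtype.secondCountableTopology {f : ℕ → ℕ → ℝ | IsMet f}

theorem isMet_set : MeasurableSet {f : ℕ → ℕ → ℝ | IsMet f} := by
  have h := measurableSet_setOf.2 Pool.Agent.H655.GE.isMet_meas
  have h1 : Measurable fun f : ℕ → ℕ → ℝ => ((f, f) : Pool.Agent.H655.GE.XX) :=
    measurable_id.prodMk measurable_id
  exact h1 h

instance : StandardBorelSpace Met := by
  have h1 : StandardBorelSpace {f : ℕ → ℕ → ℝ | IsMet f} := isMet_set.standardBorel
  have h3 : (Subtype.instMeasurableSpace : MeasurableSpace {f : ℕ → ℕ → ℝ // IsMet f}) =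
      borel {f : ℕ → ℕ → ℝ // IsMet f} := BorelSpace.measurable_eq
  have h2 : @StandardBorelSpace {f : ℕ → ℕ → ℝ // IsMet f}
    (Subtype.instMeasurableSpace : MeasurableSpace {f : ℕ → ℕ → ℝ // IsMet f}) := h1
  rw [h3] at h2
  exact h2

theorem borel_analytic2 {S : Set (Met × Met)} (hS : MeasurableSet S) : AnalyticSet S := by
  have h := hS.analyticSet_image (f := (id : Met × Met → Met × Met)) measurable_id
  rwa [image_id] at h

theorem restr (B : Set Met) (hB : MeasurableSet B)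
    (hE : MeasurableSet {p : Met × Met | p.1 ∈ B ∧ p.2 ∈ B ∧ rhoGH p.1 p.2 = 0}) :
    ∃ θ : Met → Met, Measurable θ ∧ ∀ f ∈ B, ∀ g ∈ B,
      (rhoGH f g = 0 ↔ Nonempty (MM (θ f) ≃ᵢ MM (θ g))) := by
  have h1 : MeasurableSet ((B ×ˢ B) \ {p : Met × Met | p.1 ∈ B ∧ p.2 ∈ B ∧ rhoGH p.1 p.2 = 0}) :=
    (hB.prod hB).diff hE
  obtain ⟨θ, h2, h3, h4⟩ := sep _ (borel_analytic2 h1) (by
    rintro p ⟨hp1, hp2⟩ h0
    exact hp2 ⟨hp1.1, hp1.2, h0⟩)
  refine ⟨θ, h2, fun f hf g hg => ⟨h3 f g, fun hi => ?_⟩⟩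
  by_contra hne
  exact h4 (f, g) ⟨⟨hf, hg⟩, fun h => hne h.2.2⟩ hi

/-- Borel relations below `E_GH` are below isometry. -/
theorem below (X : Type) [MeasurableSpace X] [StandardBorelSpace X] (E : X → X → Prop)
    (hE : MeasurableSet {p : X × X | E p.1 p.2}) (h : X → Met) (hh : Measurable h)
    (hr : ∀ x y, E x y ↔ rhoGH (h x) (h y) = 0) :
    ∃ k : X → Met, Measurable k ∧ ∀ x y, E x y ↔ Nonempty (MM (k x) ≃ᵢ MM (k y)) := by
  have h1 : AnalyticSet ((fun p : X × X => (h p.1, h p.2)) '' {p : X × X | E p.1 p.2}ᶜ) :=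
    hE.compl.analyticSet_image ((hh.comp measurable_fst).prodMk (hh.comp measurable_snd))
  obtain ⟨θ, h2, h3, h4⟩ := sep _ h1 (by
    rintro _ ⟨p, hp, rfl⟩ h0
    exact hp ((hr _ _).2 h0))
  refine ⟨fun x => θ (h x), h2.comp hh, fun x y => ⟨fun hxy => h3 _ _ ((hr _ _).1 hxy), ?_⟩⟩
  intro hi
  by_contra hne
  exact h4 (h x, h y) ⟨(x, y), hne, rfl⟩ hi

end Pool.Agent.H655.GS
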