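import Pool.Agent.H655.GS.Bound

/-! Measurability of the codes. -/

namespace Pool.Agent.H655.GS

open Set Pool.Agent.H655.UR MeasureTheory
open Pool.Agent.H655.GE (Rel Cor Lb' vl' vl'_mem vl'_rel gh_zero ev_cont ev_meas vl'_meas TT' mx of)
open scoped ENNReal

variable (X : RSys)

theorem dd_meas (A : MeasurableSpace Met)
    (h : ∀ (s t : List ℕ) (q : ℚ), 0 ≤ q → @MeasurableSet Met A {f | X.R f f s t q})
    (s t : List ℕ) : @Measurable Met ℝ A _ (fun f => dd X f f s t) := by
  apply measurable_of_Iio
  intro r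
  by_cases hr : r ≤ 1
  · have e : (fun f : Met => dd X f f s t) ⁻¹' Iio r =
        ⋃ q : {q : ℚ // 0 ≤ q ∧ (q : ℝ) < r}, {f : Met | X.R f f s t (q.1 : ℝ)} := by
      ext f
      simp only [mem_preimage, mem_Iio, mem_iUnion, mem_setOf_eq, Subtype.exists, exists_prop]
      constructor
      · intro hf
        obtain ⟨ε, h0, h1, h2⟩ := rel_of_dd' X hf hr
        obtain ⟨q, hq1, hq2⟩ := exists_rat_btwn h1
        exact ⟨q, ⟨by exact_mod_cast h0.trans hq1.le, hq2⟩, X.mono h2 hq1.le⟩
      · rintro ⟨q, ⟨h0, h1⟩, h2⟩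
        exact (dd_le X h2 (by exact_mod_cast h0)).trans_lt h1
    rw [e]
    exact MeasurableSet.iUnion fun q => h s t q.1 q.2.1
  · have e : (fun f : Met => dd X f f s t) ⁻¹' Iio r = univ := by
      ext f
      simp only [mem_preimage, mem_Iio, mem_univ, iff_true]
      have := dd_le_one X f f s t
      linarith
    rw [e]
    exact MeasurableSet.univ

theorem EE_meas (A : MeasurableSpace Met)
    (h : ∀ (s t : List ℕ) (q : ℚ), 0 ≤ q → @MeasurableSet Met A {f | X.R f f s t q})
    (s t : List ℕ) : @Measurable Met ℝ A _ (fun f => EE X f f s t) := by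
  unfold EE
  split_ifs
  · exact dd_meas X A h _ _
  · exact dd_meas X A h _ _
  · exact dd_meas X A h _ _
  · exact measurable_const

theorem WX_meas (A : MeasurableSpace Met) (hA : borel Met ≤ A)
    (h : ∀ (s t : List ℕ) (q : ℚ), 0 ≤ q → @MeasurableSet Met A {f | X.R f f s t q})
    (x y : TT') : @Measurable Met ℝ A _ (fun f => WX X f f x y) := by
  rcases x with m | p <;> rcases y with m' | q
  · simp only [WX]
    exact measurable_const
  · simp only [WX]
    exact ((vl'_meas A hA _ _).const_mul _).const_add _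
  · simp only [WX]
    exact ((vl'_meas A hA _ _).const_mul _).const_add _
  · simp only [WX, tp]
    exact (((EE_meas X A h _ _).max measurable_const).const_mul _).const_add _

theorem theta_meas (A : MeasurableSpace Met) (hA : borel Met ≤ A)
    (h : ∀ (s t : List ℕ) (q : ℚ), 0 ≤ q → @MeasurableSet Met A {f | X.R f f s t q}) :
    @Measurable Met Met A (borel Met) (theta X) := by
  have h1 : @Measurable Met (ℕ → ℕ → ℝ) A _ (fun f : Met => ((theta X f).1 : ℕ → ℕ → ℝ)) := by
    refine @measurable_pi_lambda _ _ _ A _ _ fun n => @measurable_pi_lambda _ _ _ A _ _ fun m => ?_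
    exact WX_meas X A hA h _ _
  have h2 : @Measurable Met {f : ℕ → ℕ → ℝ // IsMet f} A _ (fun f => theta X f) :=
    h1.subtype_mk
  have h3 : (Subtype.instMeasurableSpace : MeasurableSpace {f : ℕ → ℕ → ℝ // IsMet f}) =
      borel {f : ℕ → ℕ → ℝ // IsMet f} := BorelSpace.measurable_eq
  intro S hS
  have hS' : @MeasurableSet {f : ℕ → ℕ → ℝ // IsMet f} Subtype.instMeasurableSpace S :=
    h3 ▸ hS
  exact h2 hS'

theorem RA_meas (α : CO) (s t : List ℕ) (q : ℝ) :
    @Measurable Met Prop (borel Met) _ (fun f => RA α f f s t q) := by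
  letI : MeasurableSpace Met := borel Met
  induction α generalizing s t q with
  | zero =>
    simp only [RA]
    refine Measurable.forall fun l => ?_
    have h1 : Measurable fun f : Met => |vl' f l s - vl' f l t| :=
      (continuous_abs.measurable).comp
        ((vl'_meas (borel Met) le_rfl l s).sub (vl'_meas (borel Met) le_rfl l t))
    exact measurableSet_setOf.1 (measurableSet_le h1 measurable_const)
  | succ α ih =>
    simp only [RA]
    refine Measurable.and (ih s t q) (Measurable.and ?_ ?_)
    · exact Measurable.forall fun a => Measurable.forall fun r =>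
        Measurable.imp measurable_const (Measurable.exists fun b => ih _ _ _)
    · exact Measurable.forall fun b => Measurable.forall fun r =>
        Measurable.imp measurable_const (Measurable.exists fun a => ih _ _ _)
  | lim α ih =>
    simp only [RA]
    exact Measurable.forall fun n => ih n _ _ _

theorem sysA_meas (α : CO) : @Measurable Met Met (borel Met) (borel Met) (theta (sysA α)) := by
  letI : MeasurableSpace Met := borel Met
  refine theta_meas (sysA α) (borel Met) le_rfl fun s t q _ => ?_
  exact measurableSet_setOf.2 (Measurable.forall fun k => RA_meas α _ _ _)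

/-- The main theorem: restrictions of `E_GH` to sets on which its complement is analytic. -/
theorem main (B : Set Met)
    (hB : AnalyticSet {p : Met × Met | p.1 ∈ B ∧ p.2 ∈ B ∧ rhoGH p.1 p.2 ≠ 0}) :
    ∃ α : CO, ∀ f ∈ B, ∀ g ∈ B,
      rhoGH f g = 0 ↔ Nonempty (MM (theta (sysA α) f) ≃ᵢ MM (theta (sysA α) g)) := by
  rw [AnalyticSet] at hB
  have key : ∃ α : CO, ∀ f ∈ B, ∀ g ∈ B, rhoGH f g ≠ 0 → ¬ ∀ ε : ℝ, 0 < ε → RA α f g [] [] ε := by
    rcases hB with hB | ⟨φ, hφ, hr⟩
    · refine ⟨CO.zero, fun f hf g hg hne => ?_⟩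
      exact absurd (show (f, g) ∈ (∅ : Set (Met × Met)) by rw [← hB]; exact ⟨hf, hg, hne⟩) (by simp)
    · obtain ⟨α, hα⟩ := bounded hφ fun x => by
        have : φ x ∈ {p : Met × Met | p.1 ∈ B ∧ p.2 ∈ B ∧ rhoGH p.1 p.2 ≠ 0} := by
          rw [← hr]
          exact ⟨x, rfl⟩
        exact this.2.2
      refine ⟨α, fun f hf g hg hne => ?_⟩
      obtain ⟨x, hx⟩ : (f, g) ∈ range φ := by
        rw [hr]
        exact ⟨hf, hg, hne⟩
      have := hα x
      rw [hx] at this
      exact this
  obtain ⟨α, hα⟩ := key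
  refine ⟨α, fun f hf g hg => ⟨fwd (sysA α), ?_⟩⟩
  rintro ⟨H⟩
  by_contra hne
  exact hα f hf g hg hne fun ε hε => root α H hε

end Pool.Agent.H655.GS
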