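import Pool.Agent.H655.GS.Bck
import Pool.Agent.H655.GS.Fwd

/-! The stages of the back-and-forth analysis. -/

namespace Pool.Agent.H655.GS

open Set Filter Topology Pool.Agent.H655.UR
open Pool.Agent.H655.GE (Rel Cor xx xx_inj xx_dense mx mx_nonneg mx_le_one mx_symm mx_tri mx_self
  mx_pos mx_lt Lb' vl' vl'_mem vl'_rel lab' lab'_surj TT' enc' lb_bd of gh_zero)
open scoped ENNReal

/-- Names of countable stages. -/
inductive CO : Type
  | zero : CO
  | succ : CO → CO
  | lim : (ℕ → CO) → CO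

/-- The stages of the approximate back-and-forth relations. -/
def RA : CO → Met → Met → List ℕ → List ℕ → ℝ → Prop
  | CO.zero, f, g, s, t, ε => ∀ l : Lb', |vl' f l s - vl' g l t| ≤ ε
  | CO.succ α, f, g, s, t, ε => RA α f g s t ε ∧
      (∀ a : ℕ, ∀ q : ℚ, ε < q → ∃ b, RA α f g (a :: s) (b :: t) q) ∧
      (∀ b : ℕ, ∀ q : ℚ, ε < q → ∃ a, RA α f g (a :: s) (b :: t) q)
  | CO.lim α, f, g, s, t, ε => ∀ n, RA (α n) f g s t ε

theorem RA.mono {α : CO} {f g : Met} {s t : List ℕ} {ε ε' : ℝ} (h : RA α f g s t ε)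
    (he : ε ≤ ε') : RA α f g s t ε' := by
  induction α generalizing s t ε ε' with
  | zero => exact fun l => (h l).trans he
  | succ α ih =>
    exact ⟨ih h.1 he, fun a q hq => h.2.1 a q (he.trans_lt hq),
      fun b q hq => h.2.2 b q (he.trans_lt hq)⟩
  | lim α ih => exact fun n => ih n (h n) he

theorem RA.refl (α : CO) (f : Met) (s : List ℕ) : RA α f f s s 0 := by
  induction α generalizing s with
  | zero => exact fun l => by simp
  | succ α ih =>
    exact ⟨ih s, fun a q hq => ⟨a, (ih _).mono hq.le⟩, fun a q hq => ⟨a, (ih _).mono hq.le⟩⟩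
  | lim α ih => exact fun n => ih n s

theorem RA.symm {α : CO} {f g : Met} {s t : List ℕ} {ε : ℝ} (h : RA α f g s t ε) :
    RA α g f t s ε := by
  induction α generalizing s t ε with
  | zero => exact fun l => by rw [abs_sub_comm]; exact h l
  | succ α ih =>
    refine ⟨ih h.1, fun a q hq => ?_, fun b q hq => ?_⟩
    · obtain ⟨b, hb⟩ := h.2.2 a q hq
      exact ⟨b, ih hb⟩
    · obtain ⟨a, ha⟩ := h.2.1 b q hq
      exact ⟨a, ih ha⟩
  | lim α ih => exact fun n => ih n (h n)

theorem RA.trans {α : CO} {f g k : Met} {s t u : List ℕ} {ε δ : ℝ} (h : RA α f g s t ε)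
    (h' : RA α g k t u δ) : RA α f k s u (ε + δ) := by
  induction α generalizing s t u ε δ with
  | zero =>
    intro l
    have h1 := h l
    have h2 := h' l
    have := abs_sub_le (vl' f l s) (vl' g l t) (vl' k l u)
    linarith
  | succ α ih =>
    refine ⟨ih h.1 h'.1, fun a q hq => ?_, fun b q hq => ?_⟩
    · obtain ⟨q1, h1, h2⟩ := exists_rat_btwn (show ε < q - δ by linarith)
      obtain ⟨c, hc⟩ := h.2.1 a q1 h1
      obtain ⟨b, hb⟩ := h'.2.1 c (q - q1) (by push_cast; linarith)
      refine ⟨b, ?_⟩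
      have := ih hc hb
      push_cast at this
      rw [add_sub_cancel] at this
      exact this
    · obtain ⟨q1, h1, h2⟩ := exists_rat_btwn (show ε < q - δ by linarith)
      obtain ⟨c, hc⟩ := h'.2.2 b (q - q1) (by push_cast; linarith)
      obtain ⟨a, ha⟩ := h.2.2 c q1 h1
      refine ⟨a, ?_⟩
      have := ih ha hc
      push_cast at this
      rw [add_sub_cancel] at this
      exact this
  | lim α ih => exact fun n => ih n (h n) (h' n)

theorem RA.lip {α : CO} {f g : Met} {s t : List ℕ} {ε : ℝ} (h : RA α f g s t ε) (l : Lb') :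
    |vl' f l s - vl' g l t| ≤ ε := by
  induction α with
  | zero => exact h l
  | succ α ih => exact ih h.1
  | lim α ih => exact ih 0 (h 0)

theorem RA.rel (α : CO) {f g : Met} {s t : List ℕ} {ε : ℝ} (h : Rel f g s t ε) (hε : 0 ≤ ε) :
    RA α f g s t ε := by
  induction α generalizing s t ε with
  | zero => exact fun l => vl'_rel h l hε
  | succ α ih =>
    refine ⟨ih h hε, fun a q hq => ?_, fun b q hq => ?_⟩
    · obtain ⟨b, hb⟩ := h.cons a
      exact ⟨b, ih (hb.mono hq.le) (by linarith)⟩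
    · obtain ⟨a, ha⟩ := h.cons' b
      exact ⟨a, ih (ha.mono hq.le) (by linarith)⟩
  | lim α ih => exact fun n => ih n h hε

theorem rel_drop {f g : Met} {s t : List ℕ} {ε : ℝ} (h : Rel f g s t ε) (k : ℕ) :
    Rel f g (s.drop k) (t.drop k) ε := by
  obtain ⟨R, h1, h2⟩ := h
  exact ⟨R, h1, List.forall₂_drop k h2⟩

/-- The system of relations of a stage. -/
def sysA (α : CO) : RSys where
  R f g s t ε := ∀ k, RA α f g (s.drop k) (t.drop k) ε
  mono h he k := (h k).mono he
  refl f s k := RA.refl α f _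
  symm h k := (h k).symm
  trans h h' k := (h k).trans (h' k)
  tail h k := by
    rw [List.drop_tail, List.drop_tail]
    exact h (k + 1)
  lip h _ l := (h 0).lip l
  rel h hε k := RA.rel α (rel_drop h k) hε

/-- Isometric codes are related at all earlier stages. -/
theorem key (α β : CO) (hβ : ∀ (f g : Met) (s t : List ℕ) (ε : ℝ), RA α f g s t ε → RA β f g s t ε)
    (f g : Met) (H : MM (theta (sysA α) f) ≃ᵢ MM (theta (sysA α) g)) {s t : List ℕ} {i j : ℕ}
    {η : ℝ} (hη : η ≤ 1 / 50) (h : NN (sysA α) H η (Sum.inr (s, i)) (Sum.inr (t, j)))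
    {δ : ℝ} (hδ : 0 < δ) : RA β f g s t (10 * η + δ) := by
  induction β generalizing f g s t i j η δ with
  | zero =>
    intro l
    have := NN_vl (sysA α) H h l
    simp only at this
    linarith
  | succ γ ih =>
    have hγ : ∀ (f g : Met) (s t : List ℕ) (ε : ℝ), RA α f g s t ε → RA γ f g s t ε :=
      fun f g s t ε h' => (hβ f g s t ε h').1
    have main : ∀ (f g : Met) (H : MM (theta (sysA α) f) ≃ᵢ MM (theta (sysA α) g))
        {s t : List ℕ} {i j : ℕ} {η : ℝ} (_ : η ≤ 1 / 50)
        (_ : NN (sysA α) H η (Sum.inr (s, i)) (Sum.inr (t, j)))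
        {δ : ℝ} (_ : 0 < δ) (b : ℕ), ∃ a, RA γ f g (a :: s) (b :: t) (10 * η + δ) := by
      intro f g H s t i j η hη h δ hδ b
      set μ : ℝ := min (δ / 50) (1 / 200) with hμ
      have hμ0 : 0 < μ := lt_min (by linarith) (by norm_num)
      have hμ1 : μ ≤ δ / 50 := min_le_left _ _
      have hμ2 : μ ≤ 1 / 200 := min_le_right _ _
      have hst := NN_len (sysA α) H hη h
      obtain ⟨y, hy⟩ := NN_total (sysA α) H (Sum.inr (s, i)) hμ0
      obtain ⟨⟨t0, j0⟩, rfl⟩ := NN_inr (sysA α) H (by linarith) hy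
      have hst0 := NN_len (sysA α) H (show μ ≤ 1 / 50 by linarith) hy
      simp only at hst hst0
      have w1 : tp (sysA α) g g (t, j) (t0, j0) < η + μ := by
        have h1 := abs_lt.1 (NN_dist (sysA α) H h hy)
        rw [WX_self (sysA α)] at h1
        have e : WX (sysA α) g g (Sum.inr (t, j)) (Sum.inr (t0, j0)) = tp (sysA α) g g (t, j) (t0, j0) := rfl
        rw [e] at h1
        linarith [h1.1]
      rw [tp_same (sysA α) (by simp only; omega)] at w1
      have w2 : dd (sysA α) g g t t0 < 10 * (η + μ) := by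
        have := le_max_left (dd (sysA α) g g (t, j).1 (t0, j0).1) (mx (t, j) (t0, j0))
        simp only at this w1
        linarith
      have r1 := hβ g g t t0 _ (rel_of_dd (sysA α) w2 (by linarith) 0)
      obtain ⟨q1, hq1, hq1'⟩ := exists_rat_btwn (show 10 * (η + μ) < 10 * (η + μ) + μ by linarith)
      obtain ⟨b0, hb0⟩ := r1.2.1 b q1 hq1
      obtain ⟨j1, hj1⟩ := xx_dense (b0 :: t0) (xx (t0, j0)) hμ0
      obtain ⟨x, hx⟩ := NN_surj (sysA α) H (Sum.inr (b0 :: t0, j1)) hμ0
      obtain ⟨⟨u, l⟩, rfl⟩ := NN_inr (sysA α) H.symm (show μ ≤ 1 / 50 by linarith) ((NN_symm (sysA α) H).2 hx)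
      have hu := NN_len (sysA α) H (show μ ≤ 1 / 50 by linarith) hx
      simp only [List.length_cons] at hu
      have w3 : tp (sysA α) g g (t0, j0) (b0 :: t0, j1) ≤ 7 / 10 + μ / 10 := by
        rw [tp_succ (sysA α) (by simp)]
        have e1 : dd (sysA α) g g (t0, j0).1 (b0 :: t0, j1).1.tail = 0 := dd_self (sysA α) g t0
        have e2 : mx (t0, j0) (b0 :: t0, j1) < μ := mx_lt (by rw [abs_sub_comm]; exact hj1)
        rw [e1]
        have := max_le hμ0.le e2.le
        linarith
      have w4 : tp (sysA α) f f (s, i) (u, l) < 7 / 10 + μ / 10 + 2 * μ := by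
        have h1 := abs_lt.1 (NN_dist (sysA α) H hy hx)
        have e : WX (sysA α) g g (Sum.inr (t0, j0)) (Sum.inr (b0 :: t0, j1)) =
          tp (sysA α) g g (t0, j0) (b0 :: t0, j1) := rfl
        have e' : WX (sysA α) f f (Sum.inr (s, i)) (Sum.inr (u, l)) = tp (sysA α) f f (s, i) (u, l) := rfl
        rw [e, e'] at h1
        linarith [h1.2]
      rw [tp_succ (sysA α) (by simp only; omega)] at w4
      have w5 : dd (sysA α) f f s u.tail < 22 * μ := by
        have := le_max_left (dd (sysA α) f f (s, i).1 (u, l).1.tail) (mx (s, i) (u, l))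
        simp only at this w4
        linarith
      obtain ⟨u0, u', rfl⟩ : ∃ u0 u', u = u0 :: u' := by
        rcases u with _ | ⟨u0, u'⟩
        · simp at hu
        · exact ⟨u0, u', rfl⟩
      simp only [List.tail_cons] at w5
      have r2 := hβ f f s u' _ (rel_of_dd (sysA α) w5 (by linarith) 0)
      obtain ⟨q2, hq2, hq2'⟩ := exists_rat_btwn (show 22 * μ < 23 * μ by linarith)
      obtain ⟨a, ha⟩ := r2.2.2 u0 q2 hq2
      have r3 := ih hγ f g H (show μ ≤ 1 / 50 by linarith) hx hμ0
      have r4 := (ha.trans r3).trans hb0.symm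
      exact ⟨a, r4.mono (by linarith)⟩
    refine ⟨ih hγ f g H hη h hδ, fun a q hq => ?_, fun b q hq => ?_⟩
    · obtain ⟨b, hb⟩ := main g f H.symm hη ((NN_symm (sysA α) H).2 h) hδ a
      exact ⟨b, hb.symm.mono hq.le⟩
    · obtain ⟨a, ha⟩ := main f g H hη h hδ b
      exact ⟨a, ha.mono hq.le⟩
  | lim γ ih =>
    intro n
    exact ih n (fun f g s t ε h' => hβ f g s t ε h' n) f g H hη h hδ

/-- Isometric codes give related metrics. -/
theorem root (α : CO) {f g : Met} (H : MM (theta (sysA α) f) ≃ᵢ MM (theta (sysA α) g)) {ε : ℝ}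
    (hε : 0 < ε) : RA α f g [] [] ε := by
  set μ : ℝ := min (ε / 11) (1 / 50) with hμ
  have hμ0 : 0 < μ := lt_min (by linarith) (by norm_num)
  have hμ1 : μ ≤ ε / 11 := min_le_left _ _
  have hμ2 : μ ≤ 1 / 50 := min_le_right _ _
  obtain ⟨y, hy⟩ := NN_total (sysA α) H (Sum.inr (([] : List ℕ), 0)) hμ0
  obtain ⟨⟨t, j⟩, rfl⟩ := NN_inr (sysA α) H hμ2 hy
  have hl := NN_len (sysA α) H hμ2 hy
  simp only [List.length_nil] at hl
  have ht : t = [] := List.length_eq_zero_iff.1 hl.symm
  subst ht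
  exact (key α α (fun _ _ _ _ _ h => h) f g H hμ2 hy hμ0).mono (by linarith)

end Pool.Agent.H655.GS
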