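import Pool.Agent.H655.GE.Code

/-! Systems of approximate back-and-forth relations and their distances. -/

namespace Pool.Agent.H655.GS

open Set Pool.Agent.H655.UR Pool.Agent.H655.GE
open scoped ENNReal

/-- A system of approximate relations between tuples. -/
structure RSys where
  /-- The relation. -/
  R : Met → Met → List ℕ → List ℕ → ℝ → Prop
  mono : ∀ {f g s t ε ε'}, R f g s t ε → ε ≤ ε' → R f g s t ε'
  refl : ∀ f s, R f f s s 0
  symm : ∀ {f g s t ε}, R f g s t ε → R g f t s ε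
  trans : ∀ {f g h s t u ε δ}, R f g s t ε → R g h t u δ → R f h s u (ε + δ)
  tail : ∀ {f g s t ε}, R f g s t ε → R f g s.tail t.tail ε
  lip : ∀ {f g s t ε}, R f g s t ε → 0 ≤ ε → ∀ l, |vl' f l s - vl' g l t| ≤ ε
  rel : ∀ {f g s t ε}, Rel f g s t ε → 0 ≤ ε → R f g s t ε

variable (X : RSys)

/-- The distance of tuples. -/
noncomputable def dd (f g : Met) (s t : List ℕ) : ℝ :=
  sInf {ε : ℝ | 0 ≤ ε ∧ (X.R f g s t ε ∨ 1 ≤ ε)}

theorem dd_bdd (f g : Met) (s t : List ℕ) :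
    BddBelow {ε : ℝ | 0 ≤ ε ∧ (X.R f g s t ε ∨ 1 ≤ ε)} := ⟨0, fun _ h => h.1⟩

theorem dd_ne (f g : Met) (s t : List ℕ) :
    {ε : ℝ | 0 ≤ ε ∧ (X.R f g s t ε ∨ 1 ≤ ε)}.Nonempty := ⟨1, zero_le_one, Or.inr le_rfl⟩

theorem dd_nonneg (f g : Met) (s t : List ℕ) : 0 ≤ dd X f g s t :=
  le_csInf (dd_ne X f g s t) fun _ h => h.1

theorem dd_le_one (f g : Met) (s t : List ℕ) : dd X f g s t ≤ 1 :=
  csInf_le (dd_bdd X f g s t) ⟨zero_le_one, Or.inr le_rfl⟩

theorem dd_le {f g : Met} {s t : List ℕ} {ε : ℝ} (h : X.R f g s t ε) (hε : 0 ≤ ε) :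
    dd X f g s t ≤ ε :=
  csInf_le (dd_bdd X f g s t) ⟨hε, Or.inl h⟩

theorem rel_of_dd {f g : Met} {s t : List ℕ} {ε : ℝ} (h : dd X f g s t < ε) (hε : ε ≤ 1) :
    X.R f g s t ε := by
  obtain ⟨ε', h1, h2⟩ := (csInf_lt_iff (dd_bdd X f g s t) (dd_ne X f g s t)).1 h
  rcases h1.2 with h3 | h3
  · exact X.mono h3 h2.le
  · linarith

theorem rel_of_dd' {f g : Met} {s t : List ℕ} {r : ℝ} (h : dd X f g s t < r) (hr : r ≤ 1) :
    ∃ ε, 0 ≤ ε ∧ ε < r ∧ X.R f g s t ε := by
  obtain ⟨ε', h1, h2⟩ := (csInf_lt_iff (dd_bdd X f g s t) (dd_ne X f g s t)).1 h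
  rcases h1.2 with h3 | h3
  · exact ⟨ε', h1.1, h2, h3⟩
  · linarith

theorem dd_self (f : Met) (s : List ℕ) : dd X f f s s = 0 :=
  le_antisymm (dd_le X (X.refl f s) le_rfl) (dd_nonneg X _ _ _ _)

theorem dd_symm (f g : Met) (s t : List ℕ) : dd X f g s t = dd X g f t s := by
  unfold dd
  congr 1
  ext ε
  constructor
  · rintro ⟨h1, h2 | h2⟩
    · exact ⟨h1, Or.inl (X.symm h2)⟩
    · exact ⟨h1, Or.inr h2⟩
  · rintro ⟨h1, h2 | h2⟩
    · exact ⟨h1, Or.inl (X.symm h2)⟩
    · exact ⟨h1, Or.inr h2⟩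

theorem dd_tri (f g h : Met) (s t u : List ℕ) : dd X f h s u ≤ dd X f g s t + dd X g h t u := by
  by_cases hc : 1 ≤ dd X f g s t + dd X g h t u
  · exact (dd_le_one X _ _ _ _).trans hc
  push Not at hc
  have n1 := dd_nonneg X f g s t
  have n2 := dd_nonneg X g h t u
  apply le_of_forall_pos_le_add
  intro κ hκ
  have hm : 0 < min (κ / 2) (1 - (dd X f g s t + dd X g h t u)) := lt_min (by linarith) (by linarith)
  set μ := min (κ / 2) (1 - (dd X f g s t + dd X g h t u)) with hμ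
  have m1 : μ ≤ κ / 2 := min_le_left _ _
  have m2 : μ ≤ 1 - (dd X f g s t + dd X g h t u) := min_le_right _ _
  have r1 := rel_of_dd X (f := f) (g := g) (s := s) (t := t) (ε := dd X f g s t + μ) (by linarith)
    (by linarith)
  have r2 := rel_of_dd X (f := g) (g := h) (s := t) (t := u) (ε := dd X g h t u + μ) (by linarith)
    (by linarith)
  have := dd_le X (X.trans r1 r2) (by linarith)
  linarith

theorem dd_tail (f g : Met) (s t : List ℕ) : dd X f g s.tail t.tail ≤ dd X f g s t := by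
  by_cases hc : 1 ≤ dd X f g s t
  · exact (dd_le_one X _ _ _ _).trans hc
  push Not at hc
  apply le_of_forall_pos_le_add
  intro κ hκ
  by_cases h1 : dd X f g s t + κ ≤ 1
  · have r := rel_of_dd X (f := f) (g := g) (s := s) (t := t) (ε := dd X f g s t + κ) (by linarith) h1
    have := dd_nonneg X f g s t
    exact dd_le X (X.tail r) (by linarith)
  · have := dd_le_one X f g s.tail t.tail
    linarith

theorem vl'_lip {f g : Met} {s t : List ℕ} (l : Lb') :
    |vl' f l s - vl' g l t| ≤ dd X f g s t := by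
  by_cases hc : 1 ≤ dd X f g s t
  · have h1 := vl'_mem f l s
    have h2 := vl'_mem g l t
    have h3 : |vl' f l s - vl' g l t| ≤ 1 := by
      rw [abs_le]
      constructor <;> linarith
    linarith
  push Not at hc
  apply le_of_forall_pos_le_add
  intro κ hκ
  by_cases h1 : dd X f g s t + κ ≤ 1
  · have r := rel_of_dd X (f := f) (g := g) (s := s) (t := t) (ε := dd X f g s t + κ) (by linarith) h1
    have := dd_nonneg X f g s t
    exact X.lip r (by linarith) l
  · have h1' := vl'_mem f l s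
    have h2 := vl'_mem g l t
    rw [abs_le]
    constructor <;> linarith

end Pool.Agent.H655.GS
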